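import Pool.Agent.U451.HS.Trig
import Pool.Agent.R228.QG.Basic

set_option autoImplicit false

/-!
# Hot-spot sets are finite or uncountable
-/

namespace Pool.Agent.U451.HS

open Set Pool.Agent.Helper334_SA Pool.Agent.R228.QG

variable {V E : Type} [Fintype E] [DecidableEq V]

/-- the conditions at the vertices, for the values `u v` at the vertices and the derivatives `u e`
at the initial points of the edges -/
def Lin (Γ : MGraph V E) (α : V → ℝ) (μ : ℝ) (C S : ℝ → ℝ) (u : V ⊕ E → ℝ) : Prop :=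
  (∃ x, u x ≠ 0) ∧
  (∀ e, u (Sum.inl (Γ.src e)) * C (Γ.len e) + u (Sum.inr e) * S (Γ.len e) =
    u (Sum.inl (Γ.tgt e))) ∧
  ∀ v, (∑ e with Γ.src e = v, u (Sum.inr e)) -
    (∑ e with Γ.tgt e = v, (-(μ * u (Sum.inl (Γ.src e)) * S (Γ.len e)) +
      u (Sum.inr e) * C (Γ.len e))) = α v * u (Sum.inl v)

/-- the function has values at most `p` -/
def Mx (Γ : MGraph V E) (C S : ℝ → ℝ) (u : V ⊕ E → ℝ) (p : ℝ) : Prop :=
  (∀ v, u (Sum.inl v) ≤ p) ∧
  ∀ e, ∀ x ∈ Icc 0 (Γ.len e), u (Sum.inl (Γ.src e)) * C x + u (Sum.inr e) * S x ≤ p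

/-- the function -/
def fn (Γ : MGraph V E) (C S : ℝ → ℝ) (u : V ⊕ E → ℝ) : Fn V E where
  vert := fun v => u (Sum.inl v)
  edge := fun e x => u (Sum.inl (Γ.src e)) * C x + u (Sum.inr e) * S x

variable {Γ : MGraph V E} {α : V → ℝ} {μ : ℝ} {C S : ℝ → ℝ}

theorem Lin.neg {u : V ⊕ E → ℝ} (h : Lin Γ α μ C S u) : Lin Γ α μ C S (-u) := by
  obtain ⟨⟨x, hx⟩, h1, h2⟩ := h
  refine ⟨⟨x, by simpa using hx⟩, fun e => ?_, fun v => ?_⟩
  · simp only [Pi.neg_apply]
    linear_combination -(h1 e)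
  · have h3 := h2 v
    simp only [Pi.neg_apply]
    rw [Finset.sum_neg_distrib]
    have h4 : ∑ e with Γ.tgt e = v, (-(μ * -u (Sum.inl (Γ.src e)) * S (Γ.len e)) +
      -u (Sum.inr e) * C (Γ.len e)) = -∑ e with Γ.tgt e = v,
      (-(μ * u (Sum.inl (Γ.src e)) * S (Γ.len e)) + u (Sum.inr e) * C (Γ.len e)) := by
      rw [← Finset.sum_neg_distrib]
      exact Finset.sum_congr rfl fun e _ => by ring
    rw [h4]
    linear_combination -h3

/-- the eigenfunctions -/
theorem of_eigen (h : CS μ C S) {f : Fn V E} (hf : IsEigenfunction Γ α μ f) :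
    ∃ u : V ⊕ E → ℝ, Lin Γ α μ C S u ∧ (∀ v, f.vert v = u (Sum.inl v)) ∧
      ∀ e, ∀ x ∈ Icc 0 (Γ.len e), f.edge e x = u (Sum.inl (Γ.src e)) * C x + u (Sum.inr e) * S x := by
  obtain ⟨⟨P, hP⟩, g, h0, h1, hd, hg, hK⟩ := hf
  have hsol := fun e x (hx : x ∈ Icc 0 (Γ.len e)) => h.sol (hd e) (hg e) hx
  set u : V ⊕ E → ℝ := fun x => x.elim f.vert (fun e => g e 0) with hu
  have hval : ∀ e, ∀ x ∈ Icc 0 (Γ.len e), f.edge e x =
      u (Sum.inl (Γ.src e)) * C x + u (Sum.inr e) * S x := by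
    intro e x hx
    rw [(hsol e x hx).1, h0]
    rfl
  have hL : ∀ e, Γ.len e ∈ Icc 0 (Γ.len e) := fun e => ⟨(Γ.len_pos e).le, le_rfl⟩
  refine ⟨u, ⟨?_, fun e => ?_, fun v => ?_⟩, fun v => rfl, hval⟩
  · by_contra hz
    push Not at hz
    apply hP
    rcases P with v | ⟨⟨e, x⟩, hx⟩
    · exact hz (Sum.inl v)
    · show f.edge e x = 0
      rw [hval e x ⟨hx.1.le, hx.2.le⟩, hz, hz]
      ring
  · rw [← hval e _ (hL e), h1]
    rfl
  · have h2 := hK v
    have h3 : ∑ e with Γ.tgt e = v, g e (Γ.len e) = ∑ e with Γ.tgt e = v,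
      (-(μ * u (Sum.inl (Γ.src e)) * S (Γ.len e)) + u (Sum.inr e) * C (Γ.len e)) := by
      refine Finset.sum_congr rfl fun e _ => ?_
      rw [(hsol e _ (hL e)).2, h0]
      rfl
    rw [h3] at h2
    exact h2

theorem eigen_of (h : CS μ C S) {u : V ⊕ E → ℝ} (hu : Lin Γ α μ C S u) :
    IsEigenfunction Γ α μ (fn Γ C S u) := by
  obtain ⟨⟨z, hz⟩, h1, h2⟩ := hu
  refine ⟨?_, fun e x => -(μ * u (Sum.inl (Γ.src e)) * S x) + u (Sum.inr e) * C x, fun e => ?_,
    fun e => ?_, fun e x _ => ?_, fun e x _ => ?_, fun v => ?_⟩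
  · by_contra hno
    push Not at hno
    have hv : ∀ v, u (Sum.inl v) = 0 := fun v => hno (Sum.inl v)
    have he : ∀ e, u (Sum.inr e) = 0 := by
      intro e
      obtain ⟨δ, hδ, hpos⟩ := h.pos
      set x : ℝ := min δ (Γ.len e / 2) with hx
      have hL := Γ.len_pos e
      have hx0 : 0 < x := lt_min hδ (by positivity)
      have hxL : x < Γ.len e := (min_le_right _ _).trans_lt (by linarith)
      have h3 : u (Sum.inl (Γ.src e)) * C x + u (Sum.inr e) * S x = 0 :=
        hno (Sum.inr ⟨(e, x), hx0, hxL⟩)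
      have h4 : 0 < S x := by
        rw [← h.S0]
        exact h.mono hpos ⟨le_rfl, hδ.le⟩ ⟨hx0.le, min_le_left _ _⟩ hx0
      rw [hv, zero_mul, zero_add] at h3
      exact (mul_eq_zero.1 h3).resolve_right h4.ne'
    rcases z with v | e
    · exact hz (hv v)
    · exact hz (he e)
  · simp [fn, h.C0, h.S0]
  · exact h1 e
  · have := (((h.dC x).const_mul (u (Sum.inl (Γ.src e)))).fun_add
      ((h.dS x).const_mul (u (Sum.inr e)))).hasDerivWithinAt (s := Icc 0 (Γ.len e))
    refine this.congr_deriv ?_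
    ring
  · have := ((((h.dS x).const_mul (μ * u (Sum.inl (Γ.src e)))).fun_neg).fun_add
      ((h.dC x).const_mul (u (Sum.inr e)))).hasDerivWithinAt (s := Icc 0 (Γ.len e))
    refine this.congr_deriv ?_
    simp only [fn]
    ring
  · have h3 := h2 v
    simp only [h.C0, h.S0, mul_zero, neg_zero, zero_add, mul_one]
    exact h3

theorem IsSecondEigenvalue.unique {μ μ' : ℝ} (h : IsSecondEigenvalue Γ α μ)
    (h' : IsSecondEigenvalue Γ α μ') : μ = μ' := by
  obtain ⟨l, h1, h2⟩ := h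
  obtain ⟨l', h3, h4⟩ := h'
  have : l = l' := h1.unique h3
  subst this
  exact h2.unique h4

/-- the points of the open edges in the hot-spot set -/
theorem mem_hot_edge (h : CS μ C S) (hμ : IsSecondEigenvalue Γ α μ) (e : E) (x : ℝ)
    (hx : 0 < x ∧ x < Γ.len e) :
    (Sum.inr ⟨(e, x), hx⟩ : Γ.Point) ∈ hotSet Γ α ↔ ∃ u : V ⊕ E → ℝ, Lin Γ α μ C S u ∧
      Mx Γ C S u (u (Sum.inl (Γ.src e)) * C x + u (Sum.inr e) * S x) := by
  constructor
  · rintro ⟨μ', f, hμ', hf, hmax⟩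
    have : μ' = μ := IsSecondEigenvalue.unique hμ' hμ
    subst this
    obtain ⟨u, hu, hv, he⟩ := of_eigen h hf
    have hval : f.val (Sum.inr ⟨(e, x), hx⟩ : Γ.Point) =
        u (Sum.inl (Γ.src e)) * C x + u (Sum.inr e) * S x := he e x ⟨hx.1.le, hx.2.le⟩
    have hedge : ∀ (q : ℝ → Prop), (∀ v, q (u (Sum.inl v))) →
        (∀ e, ∀ y, 0 < y → y < Γ.len e → q (u (Sum.inl (Γ.src e)) * C y + u (Sum.inr e) * S y)) →
        ∀ e, ∀ y ∈ Icc 0 (Γ.len e), q (u (Sum.inl (Γ.src e)) * C y + u (Sum.inr e) * S y) := by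
      intro q h1 h2 e y hy
      rcases eq_or_lt_of_le hy.1 with h3 | h3
      · rw [← h3, h.C0, h.S0]
        simpa using h1 (Γ.src e)
      · rcases eq_or_lt_of_le hy.2 with h4 | h4
        · rw [h4, hu.2.1 e]
          exact h1 _
        · exact h2 e y h3 h4
    rcases hmax with hmax | hmin
    · refine ⟨u, hu, ?_, ?_⟩
      · intro v
        rw [← hval, ← hv v]
        exact hmax (Sum.inl v)
      · refine hedge (fun t => t ≤ _) (fun v => ?_) (fun e' y hy0 hy1 => ?_)
        · rw [← hval, ← hv v]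
          exact hmax (Sum.inl v)
        · rw [← hval, ← he e' y ⟨hy0.le, hy1.le⟩]
          exact hmax (Sum.inr ⟨(e', y), hy0, hy1⟩)
    · refine ⟨-u, hu.neg, ?_, ?_⟩
      · intro v
        simp only [Pi.neg_apply]
        have : u (Sum.inl (Γ.src e)) * C x + u (Sum.inr e) * S x ≤ u (Sum.inl v) := by
          rw [← hval, ← hv v]
          exact hmin (Sum.inl v)
        linarith
      · intro e' y hy
        simp only [Pi.neg_apply]
        have := hedge (fun t => u (Sum.inl (Γ.src e)) * C x + u (Sum.inr e) * S x ≤ t)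
          (fun v => by
            rw [← hval, ← hv v]
            exact hmin (Sum.inl v))
          (fun e' y hy0 hy1 => by
            rw [← hval, ← he e' y ⟨hy0.le, hy1.le⟩]
            exact hmin (Sum.inr ⟨(e', y), hy0, hy1⟩)) e' y hy
        linarith
  · rintro ⟨u, hu, hv, he⟩
    refine ⟨μ, fn Γ C S u, hμ, eigen_of h hu, Or.inl fun Q => ?_⟩
    rcases Q with v | ⟨⟨e', y⟩, hy⟩
    · exact hv v
    · exact he e' y ⟨hy.1.le, hy.2.le⟩

/-- `Lin` is a semialgebraic condition -/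
theorem sap_lin [Fintype V] {ι : Type} (φ : V ⊕ E → (ι → ℝ) → ℝ) (hφ : ∀ x, PF (φ x)) :
    SAP (fun w => Lin Γ α μ C S (fun x => φ x w)) := by
  refine SAP.and ?_ (SAP.and ?_ ?_)
  · exact SAP.exists_fin fun x => (SAP.eq_zero (hφ x)).not
  · exact sap_forall_fin fun e => SAP.eq (((hφ _).mul (PF.const _)).add ((hφ _).mul (PF.const _)))
      (hφ _)
  · exact sap_forall_fin fun v => SAP.eq ((PF.sum _ fun e _ => hφ _).sub
      (PF.sum _ fun e _ => ((((PF.const μ).mul (hφ _)).mul (PF.const _)).neg).add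
        ((hφ _).mul (PF.const _)))) ((PF.const _).mul (hφ _))

omit [DecidableEq V] in
/-- `Mx` is a semialgebraic condition -/
theorem sap_mx [Fintype V] (h : CS μ C S) {ι : Type} (φ : V ⊕ E → (ι → ℝ) → ℝ) (hφ : ∀ x, PF (φ x))
    {p : (ι → ℝ) → ℝ} (hp : PF p) : SAP (fun w => Mx Γ C S (fun x => φ x w) (p w)) := by
  obtain ⟨δ, hδ, hpos⟩ := h.pos
  refine SAP.and ?_ ?_
  · exact sap_forall_fin fun v => SAP.le (hφ _) hp
  · exact sap_forall_fin fun e => h.sap_max hδ hpos (Γ.len_pos e) (hφ _) (hφ _) hp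

open Classical in
/-- a point of an edge -/
noncomputable def pt (Γ : MGraph V E) (e : E) (x : ℝ) : Γ.Point :=
  if hx : 0 < x ∧ x < Γ.len e then Sum.inr ⟨(e, x), hx⟩ else Sum.inl (Γ.src e)

omit [Fintype E] [DecidableEq V] in
theorem pt_eq (Γ : MGraph V E) (e : E) (x : ℝ) (hx : 0 < x ∧ x < Γ.len e) :
    pt Γ e x = Sum.inr ⟨(e, x), hx⟩ := dif_pos hx

/-- **The hot-spot set is finite or uncountable.** -/
theorem main [Fintype V] (Γ : MGraph V E) (α : V → ℝ) (hc : (hotSet Γ α).Countable) :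
    (hotSet Γ α).Finite := by
  classical
  by_cases hex : ∃ μ, IsSecondEigenvalue Γ α μ
  swap
  · have : hotSet Γ α = ∅ := by
      ext P
      simp only [mem_empty_iff_false, iff_false]
      rintro ⟨μ, f, hμ, -⟩
      exact hex ⟨μ, hμ⟩
    rw [this]
    exact Set.finite_empty
  obtain ⟨μ, hμ⟩ := hex
  obtain ⟨C, S, h⟩ := exists_CS μ
  obtain ⟨δ, hδ, hpos⟩ := h.pos
  set Me : E → Set ℝ := fun e => {x | ∃ hx : 0 < x ∧ x < Γ.len e,
    (Sum.inr ⟨(e, x), hx⟩ : Γ.Point) ∈ hotSet Γ α} with hMe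
  have hMc : ∀ e, (Me e).Countable := by
    intro e
    have hinj : InjOn (pt Γ e) (Me e) := by
      rintro x ⟨hx, -⟩ y ⟨hy, -⟩ hxy
      rw [pt_eq Γ e x hx, pt_eq Γ e y hy] at hxy
      have h1 := Sum.inr_injective hxy
      have h2 := congrArg (fun z => z.1.2) h1
      exact h2
    refine MapsTo.countable_of_injOn (t := hotSet Γ α) ?_ hinj hc
    rintro x ⟨hx, hxM⟩
    rw [pt_eq Γ e x hx]
    exact hxM
  have hMf : ∀ e, (Me e).Finite := by
    intro e
    set L := Γ.len e with hLdef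
    have hL : 0 < L := Γ.len_pos e
    obtain ⟨n, hn⟩ := exists_nat_gt (L / δ)
    have hn0 : 0 < n := by
      have : (0 : ℝ) < n := lt_trans (by positivity) hn
      exact_mod_cast this
    have hnr : (0 : ℝ) < n := by exact_mod_cast hn0
    set d : ℝ := L / n with hd
    have hd0 : 0 < d := by positivity
    have hdδ : d ≤ δ := by
      rw [hd, div_le_iff₀ hnr]
      rw [div_lt_iff₀ hδ] at hn
      linarith
    have hLd : L = n * d := by rw [hd]; field_simp
    have hposd : ∀ x ∈ Icc 0 d, 0 < C x := fun x hx => hpos x ⟨hx.1, hx.2.trans hdδ⟩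
    -- the semialgebraic sets
    set T : ℕ → (Unit → ℝ) → Prop := fun j w => ∃ c : ℝ,
      (0 ≤ w () ∧ w () ≤ S d ∧ 0 < c ∧ c ^ 2 + μ * w () ^ 2 = 1) ∧
      ∃ u : V ⊕ E → ℝ, Lin Γ α μ C S u ∧ Mx Γ C S u
        (u (Sum.inl (Γ.src e)) * (C (j * d) * c - μ * S (j * d) * w ()) +
          u (Sum.inr e) * (S (j * d) * c + C (j * d) * w ())) with hT
    have hTs : ∀ j, SAP (T j) := by
      intro j
      refine SAP.exists' (p := fun (w : Unit → ℝ) c =>
        (0 ≤ w () ∧ w () ≤ S d ∧ 0 < c ∧ c ^ 2 + μ * w () ^ 2 = 1) ∧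
        ∃ u : V ⊕ E → ℝ, Lin Γ α μ C S u ∧ Mx Γ C S u
          (u (Sum.inl (Γ.src e)) * (C (j * d) * c - μ * S (j * d) * w ()) +
            u (Sum.inr e) * (S (j * d) * c + C (j * d) * w ()))) ?_
      have hs : PF (fun w : Option Unit → ℝ => w (some ())) := PF.coord _
      have hcc : PF (fun w : Option Unit → ℝ => w none) := PF.coord _
      refine SAP.and ?_ ?_
      · exact (SAP.le PF.zero hs).and ((SAP.le hs (PF.const _)).and ((SAP.lt PF.zero hcc).and
          (SAP.eq ((hcc.pow 2).add ((PF.const μ).mul (hs.pow 2))) PF.one)))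
      · refine sap_block (V ⊕ E) (Option Unit) (fun w u => Lin Γ α μ C S u ∧ Mx Γ C S u
          (u (Sum.inl (Γ.src e)) * (C (j * d) * w none - μ * S (j * d) * w (some ())) +
            u (Sum.inr e) * (S (j * d) * w none + C (j * d) * w (some ())))) ?_
        have hφ : ∀ x : V ⊕ E, PF (fun w : Option Unit ⊕ (V ⊕ E) → ℝ => w (Sum.inr x)) :=
          fun x => PF.coord _
        have hs' : PF (fun w : Option Unit ⊕ (V ⊕ E) → ℝ => w (Sum.inl (some ()))) := PF.coord _
        have hc' : PF (fun w : Option Unit ⊕ (V ⊕ E) → ℝ => w (Sum.inl none)) := PF.coord _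
        refine SAP.and (sap_lin _ hφ) (sap_mx h _ hφ ?_)
        exact ((hφ _).mul (((PF.const _).mul hc').sub ((PF.const _).mul hs'))).add
          ((hφ _).mul (((PF.const _).mul hc').add ((PF.const _).mul hs')))
    have key : ∀ j : ℕ, ∀ y ∈ Icc 0 d, (hx : 0 < j * d + y ∧ j * d + y < L) →
        (j * d + y ∈ Me e ↔ T j (fun _ => S y)) := by
      intro j y hy hx
      have h1 : j * d + y ∈ Me e ↔ ∃ u : V ⊕ E → ℝ, Lin Γ α μ C S u ∧ Mx Γ C S u
          (u (Sum.inl (Γ.src e)) * C (j * d + y) + u (Sum.inr e) * S (j * d + y)) := by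
        rw [← mem_hot_edge h hμ e (j * d + y) hx]
        constructor
        · rintro ⟨_, hm⟩
          exact hm
        · intro hm
          exact ⟨hx, hm⟩
      rw [h1, (h.add (j * d) hy.1).1, (h.add (j * d) hy.1).2]
      constructor
      · intro hu
        exact ⟨C y, (h.param hd0.le hposd _ _).1 ⟨y, hy, rfl, rfl⟩, hu⟩
      · rintro ⟨c, hcs, hu⟩
        obtain ⟨y', hy', rfl, hyy⟩ := (h.param hd0.le hposd _ _).2 hcs
        have : y = y' := (h.mono hposd).injOn hy hy' hyy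
        subst this
        exact hu
    have hTc : ∀ j ∈ Finset.range n, {t : ℝ | T j fun _ => t}.Countable := by
      intro j hj
      have h1 : {t : ℝ | T j fun _ => t} ⊆
          (fun x => S (x - j * d)) '' (Me e ∪ {0, L}) := by
        intro s hs
        obtain ⟨c, hcs, hu⟩ := hs
        obtain ⟨y, hy, rfl, rfl⟩ := (h.param hd0.le hposd _ _).2 hcs
        have hx := cover_sub hj hy
        rw [← hLd] at hx
        refine ⟨j * d + y, ?_, by simp⟩
        by_cases h0 : j * d + y = 0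
        · right; left; exact h0
        by_cases h2 : j * d + y = L
        · right; right; exact h2
        left
        exact (key j y hy ⟨lt_of_le_of_ne hx.1 (Ne.symm h0), lt_of_le_of_ne hx.2 h2⟩).2
          ⟨C y, hcs, hu⟩
      refine (Set.Countable.image ?_ _).mono h1
      exact (hMc e).union (Set.toFinite _).countable
    have hTf : ∀ j ∈ Finset.range n, {t : ℝ | T j fun _ => t}.Finite := fun j hj =>
      finite_of_countable (hTs j) (hTc j hj)
    refine Set.Finite.subset (Set.Finite.biUnion (Finset.finite_toSet (Finset.range n))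
      (t := fun j => (fun y => (j : ℝ) * d + y) '' (Icc 0 d ∩ S ⁻¹' {t : ℝ | T j fun _ => t}))
      fun j hj => ?_) ?_
    · refine Set.Finite.image _ ?_
      have h1 := hTf j hj
      refine Set.Finite.of_finite_image (f := S) (h1.subset ?_)
        ((h.mono hposd).injOn.mono inter_subset_left)
      rintro _ ⟨y, ⟨-, hy⟩, rfl⟩
      exact hy
    · rintro x ⟨hx, hxM⟩
      have hx' : x ∈ Icc 0 (n * d) := by
        rw [← hLd]
        exact ⟨hx.1.le, hx.2.le⟩
      obtain ⟨j, hj, y, hy, rfl⟩ := cover n hd0.le hn0 hx'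
      simp only [mem_iUnion]
      exact ⟨j, hj, y, ⟨hy, (key j y hy hx).1 ⟨hx, hxM⟩⟩, rfl⟩
  -- all points
  have h1 : hotSet Γ α ⊆ (range fun v : V => (Sum.inl v : Γ.Point)) ∪
      ⋃ e ∈ ((Finset.univ : Finset E) : Set E), pt Γ e '' (Me e) := by
    intro P hP
    rcases P with v | ⟨⟨e, x⟩, hx⟩
    · left
      exact ⟨v, rfl⟩
    · right
      exact mem_iUnion₂.2 ⟨e, Finset.mem_coe.2 (Finset.mem_univ _), x, ⟨hx, hP⟩, pt_eq Γ e x hx⟩
  refine Set.Finite.subset ?_ h1
  refine Set.Finite.union (Set.finite_range _) ?_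
  exact Set.Finite.biUnion (Finset.finite_toSet _) fun e _ => (hMf e).image _

end Pool.Agent.U451.HS
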