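import Pool.Agent.Helper334_SA.Cell

set_option autoImplicit false

/-!
# Semialgebraic predicates: blocks of quantifiers, and countable sets on the line
-/

namespace Pool.Agent.U451.HS

open Pool.Agent.Helper334_SA

/-- a block of existential quantifiers -/
theorem sap_block (κ : Type) [Finite κ] : ∀ (ι : Type) (p : (ι → ℝ) → (κ → ℝ) → Prop),
    SAP (fun w : ι ⊕ κ → ℝ => p (fun i => w (Sum.inl i)) (fun k => w (Sum.inr k))) →
    SAP (fun v => ∃ u : κ → ℝ, p v u) := by
  induction κ using Finite.induction_empty_option with
  | of_equiv e ih =>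
    rename_i α β
    intro ι p h
    have h1 := ih ι (fun v u => p v (fun b => u (e.symm b))) ?_
    · refine h1.congr fun v => ⟨?_, ?_⟩
      · rintro ⟨u, hu⟩
        refine ⟨fun a => u (e a), ?_⟩
        simpa using hu
      · rintro ⟨u, hu⟩
        exact ⟨_, hu⟩
    · exact SAP.preimage h (φ := fun (w : ι ⊕ α → ℝ) (x : ι ⊕ β) =>
        x.elim (fun i => w (Sum.inl i)) (fun b => w (Sum.inr (e.symm b))))
        (fun x => by
          rcases x with i | b
          · exact PF.coord _
          · exact PF.coord _)
  | h_empty =>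
    intro ι p h
    have h1 := SAP.preimage h (φ := fun (w : ι → ℝ) (x : ι ⊕ PEmpty) =>
        x.elim (fun i => w i) (fun b => b.elim))
        (fun x => by
          rcases x with i | b
          · exact PF.coord _
          · exact b.elim)
    refine h1.congr fun v => ⟨?_, ?_⟩
    · rintro ⟨u, hu⟩
      have : u = fun k : PEmpty => (k.elim : ℝ) := by funext k; exact k.elim
      rw [this] at hu
      exact hu
    · intro hu
      exact ⟨_, hu⟩
  | h_option ih =>
    rename_i α _
    intro ι p h
    have h1 := ih (Option ι) (fun v u => p (fun i => v (some i)) (ext (v none) u)) ?_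
    · have h2 := SAP.exists' (p := fun (v : ι → ℝ) t => ∃ u : α → ℝ, p v (ext t u)) h1
      refine h2.congr fun v => ⟨?_, ?_⟩
      · rintro ⟨u, hu⟩
        refine ⟨u none, fun a => u (some a), ?_⟩
        have : ext (u none) (fun a => u (some a)) = u := by
          funext o
          cases o <;> rfl
        rwa [this]
      · rintro ⟨t, u, hu⟩
        exact ⟨_, hu⟩
    · exact SAP.preimage h (φ := fun (w : Option ι ⊕ α → ℝ) (x : ι ⊕ Option α) =>
        x.elim (fun i => w (Sum.inl (some i)))
          (fun o => ext (w (Sum.inl none)) (fun a => w (Sum.inr a)) o))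
        (fun x => by
          rcases x with i | o
          · exact PF.coord _
          · cases o with
            | none => exact PF.coord _
            | some a => exact PF.coord _)

theorem sap_forall_fin {ι : Type} {α : Type*} [Fintype α] {p : α → (ι → ℝ) → Prop}
    (h : ∀ a, SAP (p a)) : SAP (fun v => ∀ a, p a v) :=
  SAP.congr (SAP.forall_mem Finset.univ fun a _ => h a) (by simp)

/-- a countable semialgebraic set on the line is finite -/
theorem finite_of_countable {p : (Unit → ℝ) → Prop} (hp : SAP p)
    (hc : {t : ℝ | p fun _ => t}.Countable) : {t : ℝ | p fun _ => t}.Finite := by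
  classical
  by_contra hinf
  obtain ⟨Q, hQ⟩ := SA.iff hp
  set P : MvPolynomial Unit ℝ → Polynomial ℝ := fun q =>
    MvPolynomial.aeval (fun _ => Polynomial.X) q with hP
  have hev : ∀ q t, (P q).eval t = MvPolynomial.aeval (fun _ : Unit => t) q := by
    intro q t
    have h1 := MvPolynomial.comp_aeval_apply (R := ℝ) (fun _ : Unit => (Polynomial.X : Polynomial ℝ))
      (Polynomial.aeval (R := ℝ) t) q
    rw [Polynomial.coe_aeval_eq_eval] at h1
    rw [hP]
    simp only
    rw [h1]
    simp
  set Z : Set ℝ := ⋃ q ∈ Q, {t | P q ≠ 0 ∧ (P q).eval t = 0} with hZ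
  have hZf : Z.Finite := by
    refine Set.Finite.biUnion (Finset.finite_toSet Q) fun q _ => ?_
    by_cases h0 : P q = 0
    · simp [h0]
    · refine ((P q).roots.toFinset.finite_toSet).subset fun t ht => ?_
      simp only [Finset.mem_coe, Multiset.mem_toFinset]
      exact (Polynomial.mem_roots h0).2 ht.2
  have hinf' : {t : ℝ | p fun _ => t}.Infinite := hinf
  obtain ⟨t, ht, htZ⟩ := (hinf'.sdiff hZf).nonempty
  have hopen : IsOpen Zᶜ := hZf.isClosed.isOpen_compl
  obtain ⟨ε, hε, hball⟩ := Metric.isOpen_iff.1 hopen t htZ
  refine absurd (hc.mono (s₁ := Set.Ioo (t - ε) (t + ε)) ?_) ?_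
  · intro s hs
    refine (hQ (fun _ => t) (fun _ => s) fun q hq => ?_).1 ht
    rw [← hev, ← hev]
    by_cases h0 : P q = 0
    · simp [h0]
    · refine sign_const (P q) (I := Set.Ioo (t - ε) (t + ε)) Set.ordConnected_Ioo ?_ ?_ hs
      · intro x hx hx0
        have hxb : x ∈ Metric.ball t ε := by
          rw [Real.ball_eq_Ioo]; exact hx
        apply hball hxb
        simp only [hZ, Set.mem_iUnion]
        exact ⟨q, hq, h0, hx0⟩
      · constructor <;> linarith
  · rw [← Cardinal.le_aleph0_iff_set_countable, not_le, Cardinal.mk_Ioo_real (by linarith)]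
    exact Cardinal.aleph0_lt_continuum

end Pool.Agent.U451.HS
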