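import Pool.Agent.U451.HS.Semi

set_option autoImplicit false

/-!
# The solutions of `f'' = - μ f`
-/

namespace Pool.Agent.U451.HS

open Set Pool.Agent.Helper334_SA

/-- `C` and `S` are the basic solutions of `f'' = - μ f` -/
structure CS (μ : ℝ) (C S : ℝ → ℝ) : Prop where
  dS : ∀ x, HasDerivAt S (C x) x
  dC : ∀ x, HasDerivAt C (-(μ * S x)) x
  C0 : C 0 = 1
  S0 : S 0 = 0

theorem exists_CS (μ : ℝ) : ∃ C S : ℝ → ℝ, CS μ C S := by
  rcases lt_trichotomy μ 0 with h | h | h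
  · set k : ℝ := Real.sqrt (-μ) with hk
    have hk0 : 0 < k := Real.sqrt_pos.2 (by linarith)
    have hk2 : k ^ 2 = -μ := Real.sq_sqrt (by linarith)
    have hl : ∀ x : ℝ, HasDerivAt (fun x : ℝ => k * x) k x := fun x => by
      simpa using (hasDerivAt_id x).const_mul k
    refine ⟨fun x => Real.cosh (k * x), fun x => Real.sinh (k * x) / k, ⟨fun x => ?_, fun x => ?_,
      by simp, by simp⟩⟩
    · have := ((Real.hasDerivAt_sinh (k * x)).comp x (hl x)).div_const k
      refine this.congr_deriv ?_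
      field_simp
    · have := (Real.hasDerivAt_cosh (k * x)).comp x (hl x)
      refine this.congr_deriv ?_
      have : μ = -k ^ 2 := by linarith
      rw [this]
      field_simp
  · refine ⟨fun _ => 1, fun x => x, ⟨fun x => hasDerivAt_id x, fun x => ?_, rfl, rfl⟩⟩
    rw [h]
    simpa using hasDerivAt_const x (1 : ℝ)
  · set k : ℝ := Real.sqrt μ with hk
    have hk0 : 0 < k := Real.sqrt_pos.2 h
    have hk2 : k ^ 2 = μ := Real.sq_sqrt h.le
    have hl : ∀ x : ℝ, HasDerivAt (fun x : ℝ => k * x) k x := fun x => by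
      simpa using (hasDerivAt_id x).const_mul k
    refine ⟨fun x => Real.cos (k * x), fun x => Real.sin (k * x) / k, ⟨fun x => ?_, fun x => ?_,
      by simp, by simp⟩⟩
    · have := ((Real.hasDerivAt_sin (k * x)).comp x (hl x)).div_const k
      refine this.congr_deriv ?_
      field_simp
    · have := (Real.hasDerivAt_cos (k * x)).comp x (hl x)
      refine this.congr_deriv ?_
      rw [← hk2]
      field_simp

variable {μ : ℝ} {C S : ℝ → ℝ}

theorem const_of {F : ℝ → ℝ} {L : ℝ} (hF : ∀ x ∈ Icc 0 L, HasDerivWithinAt F 0 (Icc 0 L) x) :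
    ∀ x ∈ Icc 0 L, F x = F 0 := by
  intro x hx
  refine constant_of_derivWithin_zero (fun y hy => (hF y hy).differentiableWithinAt) ?_ x hx
  intro y hy
  have hL : (0 : ℝ) < L := lt_of_le_of_lt hy.1 hy.2
  exact (hF y ⟨hy.1, hy.2.le⟩).derivWithin (uniqueDiffOn_Icc hL y ⟨hy.1, hy.2.le⟩)

theorem CS.sq (h : CS μ C S) {x : ℝ} (hx : 0 ≤ x) : C x ^ 2 + μ * S x ^ 2 = 1 := by
  have h1 := const_of (F := fun x => C x ^ 2 + μ * S x ^ 2) (L := x) (fun y _ => by
    have := (((h.dC y).fun_pow 2).fun_add (((h.dS y).fun_pow 2).const_mul μ)).hasDerivWithinAt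
      (s := Icc 0 x)
    refine this.congr_deriv ?_
    push_cast
    ring) x ⟨hx, le_rfl⟩
  simp only [h.C0, h.S0] at h1
  rw [h1]
  ring

theorem CS.sol (h : CS μ C S) {f g : ℝ → ℝ} {L : ℝ}
    (hf : ∀ x ∈ Icc 0 L, HasDerivWithinAt f (g x) (Icc 0 L) x)
    (hg : ∀ x ∈ Icc 0 L, HasDerivWithinAt g (-(μ * f x)) (Icc 0 L) x) {x : ℝ}
    (hx : x ∈ Icc 0 L) :
    f x = f 0 * C x + g 0 * S x ∧ g x = -(μ * f 0 * S x) + g 0 * C x := by
  have h1 := const_of (F := fun x => f x * C x - g x * S x) (fun y hy => by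
    have := ((hf y hy).fun_mul (h.dC y).hasDerivWithinAt).fun_sub
      ((hg y hy).fun_mul (h.dS y).hasDerivWithinAt)
    refine this.congr_deriv ?_
    ring) x hx
  have h2 := const_of (F := fun x => μ * f x * S x + g x * C x) (fun y hy => by
    have := (((hf y hy).const_mul μ).fun_mul (h.dS y).hasDerivWithinAt).fun_add
      ((hg y hy).fun_mul (h.dC y).hasDerivWithinAt)
    refine this.congr_deriv ?_
    ring) x hx
  simp only [h.C0, h.S0, mul_zero, mul_one, sub_zero, zero_add] at h1 h2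
  have h3 := h.sq hx.1
  constructor
  · rw [← h1, ← h2]
    linear_combination (-(f x)) * h3
  · rw [← h1, ← h2]
    linear_combination (-(g x)) * h3

theorem CS.add (h : CS μ C S) (x : ℝ) {y : ℝ} (hy : 0 ≤ y) :
    C (x + y) = C x * C y - μ * S x * S y ∧ S (x + y) = S x * C y + C x * S y := by
  have h1 := h.sol (f := fun y => S (x + y)) (g := fun y => C (x + y)) (L := y)
    (fun z _ => by
      have := (h.dS (x + z)).comp_const_add x z
      exact this.hasDerivWithinAt)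
    (fun z _ => by
      have := (h.dC (x + z)).comp_const_add x z
      exact this.hasDerivWithinAt) (x := y) ⟨hy, le_rfl⟩
  simp only [add_zero] at h1
  exact ⟨by rw [h1.2]; ring, h1.1⟩

/-- on `[0, δ]` the function `C` is positive -/
theorem CS.pos (h : CS μ C S) : ∃ δ : ℝ, 0 < δ ∧ ∀ x ∈ Icc 0 δ, 0 < C x := by
  have hc : ContinuousAt C 0 := (h.dC 0).continuousAt
  have h1 : ∀ᶠ x in nhds (0 : ℝ), 0 < C x := by
    apply hc.eventually
    rw [h.C0]
    exact lt_mem_nhds one_pos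
  obtain ⟨ε, hε, hb⟩ := Metric.eventually_nhds_iff.1 h1
  refine ⟨ε / 2, by positivity, fun x hx => hb ?_⟩
  rw [Real.dist_eq, sub_zero, abs_of_nonneg hx.1]
  linarith [hx.2]

theorem CS.mono (h : CS μ C S) {d : ℝ} (hd : ∀ x ∈ Icc 0 d, 0 < C x) :
    StrictMonoOn S (Icc 0 d) := by
  refine strictMonoOn_of_deriv_pos (convex_Icc 0 d) ?_ ?_
  · exact fun x _ => (h.dS x).continuousAt.continuousWithinAt
  · intro x hx
    rw [(h.dS x).deriv]
    exact hd x (interior_subset hx)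

/-- the curve `(C y, S y)` for `y` in a short interval -/
theorem CS.param (h : CS μ C S) {d : ℝ} (hd0 : 0 ≤ d) (hd : ∀ x ∈ Icc 0 d, 0 < C x) (c s : ℝ) :
    (∃ y ∈ Icc 0 d, c = C y ∧ s = S y) ↔ (0 ≤ s ∧ s ≤ S d ∧ 0 < c ∧ c ^ 2 + μ * s ^ 2 = 1) := by
  have hm := h.mono hd
  have h0 : (0 : ℝ) ∈ Icc 0 d := ⟨le_rfl, hd0⟩
  have h1 : d ∈ Icc 0 d := ⟨hd0, le_rfl⟩
  constructor
  · rintro ⟨y, hy, rfl, rfl⟩
    refine ⟨?_, hm.monotoneOn hy h1 hy.2, hd y hy, h.sq hy.1⟩
    rw [← h.S0]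
    exact hm.monotoneOn h0 hy hy.1
  · rintro ⟨hs0, hs1, hc, he⟩
    have hcont : ContinuousOn S (Icc 0 d) := fun x _ =>
      (h.dS x).continuousAt.continuousWithinAt
    have hiv := intermediate_value_Icc hd0 hcont
    rw [h.S0] at hiv
    obtain ⟨y, hy, hys⟩ := hiv ⟨hs0, hs1⟩
    refine ⟨y, hy, ?_, hys.symm⟩
    have h2 := h.sq hy.1
    rw [hys] at h2
    have h3 : c ^ 2 = C y ^ 2 := by linarith
    exact (pow_left_inj₀ hc.le (hd y hy).le two_ne_zero).1 h3

/-- covering `[0, n d]` -/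
theorem cover (n : ℕ) {d x : ℝ} (hd : 0 ≤ d) (hn : 0 < n) (hx : x ∈ Icc 0 (n * d)) :
    ∃ j ∈ Finset.range n, ∃ y ∈ Icc 0 d, x = j * d + y := by
  induction n with
  | zero => exact absurd hn (lt_irrefl 0)
  | succ n ih =>
    by_cases h : n * d ≤ x
    · refine ⟨n, by simp, x - n * d, ⟨by linarith, ?_⟩, by ring⟩
      have := hx.2
      push_cast at this
      linarith
    · push Not at h
      have hn' : 0 < n := by
        rcases Nat.eq_zero_or_pos n with h0 | h0
        · subst h0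
          simp only [Nat.cast_zero, zero_mul] at h
          exact absurd hx.1 (not_le.2 h)
        · exact h0
      obtain ⟨j, hj, y, hy, hxy⟩ := ih hn' ⟨hx.1, h.le⟩
      exact ⟨j, by simp only [Finset.mem_range] at hj ⊢; omega, y, hy, hxy⟩

theorem cover_sub {n j : ℕ} (hj : j ∈ Finset.range n) {d y : ℝ} (hy : y ∈ Icc 0 d) :
    (j : ℝ) * d + y ∈ Icc 0 (n * d) := by
  have hd : 0 ≤ d := hy.1.trans hy.2
  constructor
  · have := hy.1
    positivity
  · have h1 : (j : ℝ) + 1 ≤ n := by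
      have : j + 1 ≤ n := by simpa using Finset.mem_range.1 hj
      exact_mod_cast this
    nlinarith [hy.2]

/-- the maximum over an interval is a semialgebraic condition -/
theorem CS.sap_max (h : CS μ C S) {δ : ℝ} (hδ : 0 < δ) (hpos : ∀ x ∈ Icc 0 δ, 0 < C x) {L : ℝ}
    (hL : 0 < L) {ι : Type} {a b p : (ι → ℝ) → ℝ} (ha : PF a) (hb : PF b) (hp : PF p) :
    SAP (fun v => ∀ x ∈ Icc 0 L, a v * C x + b v * S x ≤ p v) := by
  obtain ⟨n, hn⟩ := exists_nat_gt (L / δ)
  have hn0 : 0 < n := by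
    have : (0 : ℝ) < n := lt_trans (by positivity) hn
    exact_mod_cast this
  have hnr : (0 : ℝ) < n := by exact_mod_cast hn0
  set d : ℝ := L / n with hd
  have hd0 : 0 < d := by positivity
  have hdδ : d ≤ δ := by
    rw [hd, div_le_iff₀ hnr]
    rw [div_lt_iff₀ hδ] at hn
    linarith
  have hLd : L = n * d := by rw [hd]; field_simp
  have hposd : ∀ x ∈ Icc 0 d, 0 < C x := fun x hx => hpos x ⟨hx.1, hx.2.trans hdδ⟩
  have h1 : SAP (fun v : ι → ℝ => ∀ j ∈ Finset.range n, ∀ c s : ℝ,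
      (0 ≤ s ∧ s ≤ S d ∧ 0 < c ∧ c ^ 2 + μ * s ^ 2 = 1) →
      a v * (C (j * d) * c - μ * S (j * d) * s) + b v * (S (j * d) * c + C (j * d) * s) ≤
        p v) := by
    refine SAP.forall_mem _ fun j _ => ?_
    refine SAP.forall' (p := fun (v : ι → ℝ) c => ∀ s : ℝ,
      (0 ≤ s ∧ s ≤ S d ∧ 0 < c ∧ c ^ 2 + μ * s ^ 2 = 1) →
      a v * (C (j * d) * c - μ * S (j * d) * s) + b v * (S (j * d) * c + C (j * d) * s) ≤
        p v) ?_
    refine SAP.forall' (p := fun (v : Option ι → ℝ) s =>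
      (0 ≤ s ∧ s ≤ S d ∧ 0 < v none ∧ v none ^ 2 + μ * s ^ 2 = 1) →
      a (fun i => v (some i)) * (C (j * d) * v none - μ * S (j * d) * s) +
        b (fun i => v (some i)) * (S (j * d) * v none + C (j * d) * s) ≤
        p (fun i => v (some i))) ?_
    have hφ : ∀ i : ι, PF (fun w : Option (Option ι) → ℝ => w (some (some i))) :=
      fun i => PF.coord _
    have ha' := ha.comp hφ
    have hb' := hb.comp hφ
    have hp' := hp.comp hφ
    have hs : PF (fun w : Option (Option ι) → ℝ => w none) := PF.coord _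
    have hc : PF (fun w : Option (Option ι) → ℝ => w (some none)) := PF.coord _
    refine SAP.imp ?_ (SAP.le ?_ hp')
    · exact (SAP.le PF.zero hs).and ((SAP.le hs (PF.const _)).and ((SAP.lt PF.zero hc).and
        (SAP.eq ((hc.pow 2).add ((PF.const μ).mul (hs.pow 2))) PF.one)))
    · exact (ha'.mul (((PF.const _).mul hc).sub ((PF.const _).mul hs))).add
        (hb'.mul (((PF.const _).mul hc).add ((PF.const _).mul hs)))
  refine h1.congr fun v => ⟨?_, ?_⟩
  · intro hv j hj c s hcs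
    obtain ⟨y, hy, rfl, rfl⟩ := (h.param hd0.le hposd c s).2 hcs
    have h2 := hv (j * d + y) (by rw [hLd]; exact cover_sub hj hy)
    rw [(h.add (j * d) hy.1).1, (h.add (j * d) hy.1).2] at h2
    exact h2
  · intro hv x hx
    rw [hLd] at hx
    obtain ⟨j, hj, y, hy, rfl⟩ := cover n hd0.le hn0 hx
    rw [(h.add (j * d) hy.1).1, (h.add (j * d) hy.1).2]
    exact hv j hj _ _ ((h.param hd0.le hposd _ _).1 ⟨y, hy, rfl, rfl⟩)

end Pool.Agent.U451.HS
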